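import Mathlib
import Pool.Agent.R344.RL.J

/-!
# Wandering domains and the integers which need `k` steps to reach the superattracting cycles

Let `f₀` be the entire function of Letherman, Schleicher and Wood, and let a set of integers `A` have
the mass `∑ 1 / |n|` over the `n ≠ 0` in `A`. For `y ≥ 0` let `cyclePoints y` be the finite set of the
integers `c ≠ 0` which are (superattracting) periodic points of `f₀` and lie in the orbit of an integer of
`[-y, y]`. The masses of the sets of the integers which reach `cyclePoints y` after exactly `k` steps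
tend to a limit `L y` as `k → ∞`. The function `L` is nondecreasing, its limit is
`log (4/3) (1 - (w₁ + w₂)/2)`, where `w₁` and `w₂` are the densities of the positive and of the negative
integers whose Fatou component is a wandering domain, and it is within `O((log y)^(-B))` of this limit
for every `B`. Hence no integer lies in a wandering domain if and only if `L y → log (4/3)`.
-/

set_option autoImplicit false

open Filter Topology

namespace Pool.Agent.Results.MP_071ec9_an.ReciprocalMassOfBasins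

open Pool.Agent.H384R2.Fatou

/-- The entire function of Letherman, Schleicher and Wood; `f₀ n = T n` for every integer `n`, where
`T` is the `3x+1` function. -/
noncomputable def f₀ (z : ℂ) : ℂ :=
  z / 2 + (z + 1 / 2) * ((1 - Complex.cos (Real.pi * z)) / 2) +
    1 / Real.pi * (1 / 2 - Complex.cos (Real.pi * z)) * Complex.sin (Real.pi * z)

/-- Among the integers of sign `s` the set `S` has natural density `d`. -/
def HasDensity (s : ℤ) (S : Set ℤ) (d : ℝ) : Prop :=
  Tendsto (fun N : ℕ => ({n : ℤ | 0 < s * n ∧ s * n ≤ N ∧ n ∈ S}.ncard : ℝ) / N) atTop (𝓝 d)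

/-- The integers whose Fatou component is a wandering domain of `f₀`. -/
def WanderingIntegers : Set ℤ := {n | IsWanderingDomain f₀ (FatouComponent f₀ n)}

/-- The integers `c ≠ 0` which are periodic points of `f₀` and lie in the orbit of an integer of
`[-y, y]`. -/
def cyclePoints (y : ℕ) : Set ℤ :=
  {c : ℤ | c ≠ 0 ∧ (∃ p : ℕ, 1 ≤ p ∧ f₀^[p] (c : ℂ) = c) ∧ ∃ m : ℤ, |m| ≤ y ∧ ∃ k : ℕ, f₀^[k] (m : ℂ) = c}

/-- The integers `n ≠ 0` whose orbit under `f₀` meets `Z` for the first time at time `k`. -/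
def level (Z : Set ℤ) (k : ℕ) : Set ℤ :=
  {n : ℤ | n ≠ 0 ∧ (∃ c ∈ Z, f₀^[k] (n : ℂ) = c) ∧ ∀ i < k, ∀ c ∈ Z, f₀^[i] (n : ℂ) ≠ c}

/-- The sum of `1 / |n|` over the `n` in `A`. -/
noncomputable def mass (A : Set ℤ) : ℝ := ∑' n : A, (1 : ℝ) / |((n : ℤ) : ℝ)|

/-- The positive (negative) integers whose Fatou component is a wandering domain of `f₀` have a natural
density `w₁` (`w₂`), and `w₁ + w₂ = 0` exactly when there are none. There is a nondecreasing function
`L` such that for every `y`: the set `cyclePoints y` is finite, its points are superattracting, the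
masses of the levels over it are finite and tend to `L y`. For every `B` there is a `K` with
`0 ≤ log (4/3) (1 - (w₁ + w₂)/2) - L y ≤ K / (log y)^B` for all `y ≥ 2`. No integer lies in a wandering
domain if and only if `L y` tends to `log (4/3)` as `y → ∞`. -/
theorem result : ∃ w₁ w₂ : ℝ, HasDensity 1 WanderingIntegers w₁ ∧ HasDensity (-1) WanderingIntegers w₂ ∧
    (w₁ + w₂ = 0 ↔ ∀ n : ℤ, n ∉ WanderingIntegers) ∧
    ∃ L : ℕ → ℝ, Monotone L ∧
      (∀ y : ℕ, (cyclePoints y).Finite ∧
        (∀ c ∈ cyclePoints y, ∀ p : ℕ, 1 ≤ p → f₀^[p] (c : ℂ) = c → HasDerivAt (f₀^[p]) 0 (c : ℂ)) ∧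
        (∀ k : ℕ, Summable (fun n : level (cyclePoints y) k => (1 : ℝ) / |((n : ℤ) : ℝ)|)) ∧
        Tendsto (fun k : ℕ => mass (level (cyclePoints y) k)) atTop (𝓝 (L y))) ∧
      (∀ B : ℕ, ∃ K : ℝ, 0 < K ∧ ∀ y : ℕ, 2 ≤ y →
        0 ≤ Real.log (4 / 3) * (1 - (w₁ + w₂) / 2) - L y ∧
        Real.log (4 / 3) * (1 - (w₁ + w₂) / 2) - L y ≤ K / Real.log y ^ B) ∧
      ((∀ n : ℤ, n ∉ WanderingIntegers) ↔ Tendsto L atTop (𝓝 (Real.log (4 / 3)))) := by
  obtain ⟨e₁, e₂, _, _, h1, h2, h3, L, hL, h5, h6, h7⟩ :=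
    Pool.Agent.R344.RL.cyc_main (d := 1) odd_one (by omega)
  have hS : WanderingIntegers = {x | ¬ Pool.Agent.R344.RL.Cy 1 x} := by
    ext n
    exact Pool.Agent.R344.RL.wand_iff n
  have hA : (∀ n : ℤ, n ∉ WanderingIntegers) ↔ ∀ x : ℤ, Pool.Agent.R344.RL.Cy 1 x := by
    rw [hS]
    simp only [Set.mem_ofPred_eq, not_not]
  rw [hA, hS]
  have hc : ∀ (a b : ℤ) (k : ℕ), f₀^[k] (a : ℂ) = b ↔ (Pool.Agent.H499R2.ND.Td 1)^[k] a = b :=
    fun a b k => Pool.Agent.R344.RL.cast_iff
  have hZ : ∀ y, cyclePoints y = Pool.Agent.R344.RL.Zy 1 y := by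
    intro y
    unfold cyclePoints Pool.Agent.R344.RL.Zy Pool.Agent.R344.RL.Per
    simp only [hc]
  have e : ∀ y k, level (cyclePoints y) k =
      Pool.Agent.R344.LS.LZ 1 (Pool.Agent.R344.RL.Zy_fin (d := 1) y).toFinset k := by
    intro y k
    ext x
    simp only [level, hZ, hc, ne_eq, Pool.Agent.R344.LS.LZ, Pool.Agent.R344.LS.FH, Set.mem_ofPred_eq,
      Set.Finite.mem_toFinset]
    refine and_congr_right fun _ => and_congr ?_ ?_
    · constructor
      · rintro ⟨c, hc1, hc2⟩
        rw [hc2]; exact hc1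
      · intro h
        exact ⟨_, h, rfl⟩
    · refine forall_congr' fun i => forall_congr' fun _ => ?_
      constructor
      · intro h h'
        exact h _ h' rfl
      · rintro h c hc1 rfl
        exact h hc1
  refine ⟨e₁, e₂, Pool.Agent.H499R2.ND.HD_ncard (Or.inl rfl) h1,
    Pool.Agent.H499R2.ND.HD_ncard (Or.inr rfl) h2, h3, L, hL, fun y => ?_, h6, h7⟩
  obtain ⟨g1, g2⟩ := h5 y
  refine ⟨?_, ?_, ?_, ?_⟩
  · rw [hZ]
    exact Pool.Agent.R344.RL.Zy_fin (d := 1) y
  · intro c _ p hp _
    exact Pool.Agent.H723R2.LSW.f₀_iter_deriv c p hp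
  · intro k
    rw [e]
    exact g1 k
  · simp only [e]
    exact g2

end Pool.Agent.Results.MP_071ec9_an.ReciprocalMassOfBasins
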