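import Mathlib
import Pool.Agent.R344.RL.F

/-!
# Leigh's criterion for the maps `x / 2`, `(3 x - r) / 2`, and the trees over the cycles

Let `r` be an odd integer which is not a multiple of `3`, and let `T` be the generalised Collatz map
with `d = 2`, `m_0 = 1`, `m_1 = 3`, `r_0 = 0`, `r_1 = r`. Leigh's chain has the two states `B(0, 2)`,
`B(1, 2)`, both have the stationary probability `1/2`, and `Λ = √3 / 2 < 1`. According to the question
all trajectories should cycle.

For a finite set `Z` of integers let the level `k` over `Z` be the set of the integers `x ≠ 0` whose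
trajectory meets `Z` for the first time at time `k`, and let its mass be the sum of `1 / |x|`. Take for
`Z` the set of the nonzero terms of all the cycles which are reached from the interval `[-y, y]`. For
each `y` the masses of the levels over this set converge to a limit `L y` as `k → ∞`. The function `L`
is nondecreasing, its limit is `log (4/3) (1 - e)`, where `e` is the natural density of the integers
whose trajectory does not cycle, and it is within `O((log y)^(-B))` of this limit for every `B`. Hence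
all trajectories cycle if and only if `L y → log (4/3)`.
-/

set_option autoImplicit false

open Filter Topology

namespace Pool.Agent.Results.MP_39d40e_nt.ReciprocalMassOfCycles

/-- The generalised Collatz map with `d = 2`, `m_0 = 1`, `m_1 = 3`, `r_0 = 0`, `r_1 = r`. -/
def T (r x : ℤ) : ℤ := if x % 2 = 0 then x / 2 else (3 * x - r) / 2

/-- The trajectory of `x` cycles, that is, it is eventually periodic. -/
def Cycles (r x : ℤ) : Prop := ∃ k j : ℕ, 1 ≤ j ∧ (T r)^[k + j] x = (T r)^[k] x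

/-- The nonzero integers `x` which lie in a cycle and in the trajectory of some integer in
`[-y, y]`. -/
def cycleTerms (r : ℤ) (y : ℕ) : Set ℤ :=
  {x : ℤ | x ≠ 0 ∧ (∃ j : ℕ, 1 ≤ j ∧ (T r)^[j] x = x) ∧ ∃ m : ℤ, |m| ≤ y ∧ ∃ k : ℕ, (T r)^[k] m = x}

/-- The level `k` over `Z`: the `x ≠ 0` whose trajectory meets `Z` for the first time at time `k`. -/
def level (r : ℤ) (Z : Set ℤ) (k : ℕ) : Set ℤ :=
  {x : ℤ | x ≠ 0 ∧ (T r)^[k] x ∈ Z ∧ ∀ i < k, (T r)^[i] x ∉ Z}

/-- The sum of `1 / |x|` over the `x` in `A`. -/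
noncomputable def mass (A : Set ℤ) : ℝ := ∑' x : A, (1 : ℝ) / |((x : ℤ) : ℝ)|

/-- Among the integers of sign `s` (`s = 1` or `s = -1`) those in `A` have the natural
density `δ`. -/
def HasDensity (s : ℤ) (A : Set ℤ) (δ : ℝ) : Prop :=
  Tendsto (fun N : ℕ => ({n : ℤ | 0 < s * n ∧ s * n ≤ N ∧ n ∈ A}.ncard : ℝ) / N) atTop (𝓝 δ)

/-- Let `r` be odd and not divisible by `3`. The positive (negative) integers whose trajectory does not
cycle have a natural density `e₁` (`e₂`), and `e₁ + e₂ = 0` exactly when all trajectories cycle. There is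
a nondecreasing function `L` such that for every `y` the set `cycleTerms r y` is finite, and the masses
of the levels over it are finite and tend to `L y`. For every `B` there is a `K` with
`0 ≤ log (4/3) (1 - (e₁ + e₂)/2) - L y ≤ K / (log y)^B` for all `y ≥ 2`. All trajectories cycle if and
only if `L y` tends to `log (4/3)` as `y → ∞`. -/
theorem result (r : ℤ) (hr : Odd r) (hr3 : ¬ (3 : ℤ) ∣ r) : ∃ e₁ e₂ : ℝ,
    HasDensity 1 {x | ¬ Cycles r x} e₁ ∧ HasDensity (-1) {x | ¬ Cycles r x} e₂ ∧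
    (e₁ + e₂ = 0 ↔ ∀ x : ℤ, Cycles r x) ∧
    ∃ L : ℕ → ℝ, Monotone L ∧
      (∀ y : ℕ, (cycleTerms r y).Finite ∧
        (∀ k : ℕ, Summable (fun x : level r (cycleTerms r y) k => (1 : ℝ) / |((x : ℤ) : ℝ)|)) ∧
        Tendsto (fun k : ℕ => mass (level r (cycleTerms r y) k)) atTop (𝓝 (L y))) ∧
      (∀ B : ℕ, ∃ K : ℝ, 0 < K ∧ ∀ y : ℕ, 2 ≤ y →
        0 ≤ Real.log (4 / 3) * (1 - (e₁ + e₂) / 2) - L y ∧
        Real.log (4 / 3) * (1 - (e₁ + e₂) / 2) - L y ≤ K / Real.log y ^ B) ∧
      ((∀ x : ℤ, Cycles r x) ↔ Tendsto L atTop (𝓝 (Real.log (4 / 3)))) := by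
  have hT : T r = Pool.Agent.H499R2.ND.Td (-r) := by
    funext x
    unfold T Pool.Agent.H499R2.ND.Td
    rw [sub_eq_add_neg]
  have hC : ∀ x, Cycles r x ↔ Pool.Agent.R344.RL.Cy (-r) x := by
    intro x
    unfold Cycles Pool.Agent.R344.RL.Cy Pool.Agent.R344.RL.Per
    rw [hT]
    refine exists_congr fun k => exists_congr fun j => and_congr_right fun _ => ?_
    rw [← Function.iterate_add_apply, add_comm]
  obtain ⟨e₁, e₂, _, _, h1, h2, h3, L, hL, h5, h6, h7⟩ :=
    Pool.Agent.R344.RL.cyc_main (d := -r) hr.neg (by rwa [dvd_neg])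
  have hS : {x | ¬ Cycles r x} = {x | ¬ Pool.Agent.R344.RL.Cy (-r) x} := by
    ext x
    exact not_congr (hC x)
  have hA : (∀ x : ℤ, Cycles r x) ↔ ∀ x : ℤ, Pool.Agent.R344.RL.Cy (-r) x := forall_congr' hC
  rw [hS, hA]
  refine ⟨e₁, e₂, Pool.Agent.H499R2.ND.HD_ncard (Or.inl rfl) h1,
    Pool.Agent.H499R2.ND.HD_ncard (Or.inr rfl) h2, h3, L, hL, fun y => ?_, h6, h7⟩
  obtain ⟨g1, g2⟩ := h5 y
  have hZ : cycleTerms r y = Pool.Agent.R344.RL.Zy (-r) y := by
    unfold cycleTerms
    rw [hT]
    rfl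
  have e : ∀ k, level r (cycleTerms r y) k =
      Pool.Agent.R344.LS.LZ (-r) (Pool.Agent.R344.RL.Zy_fin (d := -r) y).toFinset k := by
    intro k
    ext x
    simp only [level, hT, hZ, Pool.Agent.R344.LS.LZ, Pool.Agent.R344.LS.FH, Set.mem_ofPred_eq,
      Set.Finite.mem_toFinset]
  refine ⟨?_, ?_, ?_⟩
  · rw [hZ]
    exact Pool.Agent.R344.RL.Zy_fin (d := -r) y
  · intro k
    rw [e]
    exact g1 k
  · simp only [e]
    exact g2

end Pool.Agent.Results.MP_39d40e_nt.ReciprocalMassOfCycles
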