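import Pool.Agent.R344.LS.Y

/-!
# The reciprocal mass of the integers that reach a set of cycles after a given number of steps

For a finite union `Z` of cycles the sum of `1/|x|` over the nonzero integers `x` whose trajectory
enters `Z` after exactly `k` (accelerated) steps has a limit as `k → ∞`, namely `log (4/3)` times the
mean of the densities of the positive and of the negative integers that reach `Z`. All integers reach
one of the five known cycles if and only if the limit for the union of these cycles is `log (4/3)`.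

Author: helper344.
-/

set_option autoImplicit false

namespace Pool.Agent.Results.MP_d02c56_nt.ReciprocalMassOfLevels

open Filter Topology

/-- the Collatz map on the integers -/
def C (x : ℤ) : ℤ := if x % 2 = 0 then x / 2 else 3 * x + 1

/-- the accelerated Collatz map: `C` for even `x`, `C ∘ C` for odd `x` -/
def T (x : ℤ) : ℤ := if x % 2 = 0 then x / 2 else (3 * x + 1) / 2

/-- the trajectory of `x` under `T` is in `Z` for the first time at time `k` -/
def Enters (Z : Finset ℤ) (k : ℕ) (x : ℤ) : Prop := T^[k] x ∈ Z ∧ ∀ i < k, T^[i] x ∉ Z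

/-- the sum of `1/|x|` over the nonzero integers `x` whose trajectory enters `Z` at time `k` -/
noncomputable def levelMass (Z : Finset ℤ) (k : ℕ) : ℝ :=
  ∑' x : {x : ℤ | x ≠ 0 ∧ Enters Z k x}, (1 : ℝ) / |((x : ℤ) : ℝ)|

/-- the union of the five known cycles -/
def known : Finset ℤ := {1, 4, 2, -1, -2, -5, -14, -7, -20, -10, -17, -50, -25, -74, -37, -110, -55, -164,
  -82, -41, -122, -61, -182, -91, -272, -136, -68, -34, 0}

/-- (1) Let `Z` be a finite set of integers with `C(Z) ⊆ Z`. There are `δ₁, δ₂ ∈ [0, 1]` such that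

* `δ₁` is the density of the positive integers whose trajectory reaches `Z`, and `δ₁ = 1` iff all
  positive integers reach `Z`; `δ₂` is the same for the negative integers;
* the sums which define `levelMass Z k` converge, and `levelMass Z k → (1/2) log (4/3) (δ₁ + δ₂)`;
* all nonzero integers reach `Z` iff `levelMass Z k → log (4/3)`.

(2) The trajectory of every integer reaches one of the five known cycles iff
`levelMass known k → log (4/3)` as `k → ∞`. -/
theorem result : (∀ Z : Finset ℤ, (∀ y ∈ Z, C y ∈ Z) → ∃ δ₁ δ₂ : ℝ,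
      0 ≤ δ₁ ∧ δ₁ ≤ 1 ∧ 0 ≤ δ₂ ∧ δ₂ ≤ 1 ∧
      (δ₁ = 1 ↔ ∀ x : ℤ, 0 < x → ∃ k : ℕ, C^[k] x ∈ Z) ∧
      (δ₂ = 1 ↔ ∀ x : ℤ, x < 0 → ∃ k : ℕ, C^[k] x ∈ Z) ∧
      Tendsto (fun N : ℕ => ({n : ℕ | 1 ≤ n ∧ n ≤ N ∧ ∃ k : ℕ, C^[k] (n : ℤ) ∈ Z}.ncard : ℝ) / N)
        atTop (𝓝 δ₁) ∧
      Tendsto (fun N : ℕ => ({n : ℕ | 1 ≤ n ∧ n ≤ N ∧ ∃ k : ℕ, C^[k] (-(n : ℤ)) ∈ Z}.ncard : ℝ) / N)
        atTop (𝓝 δ₂) ∧
      (∀ k : ℕ, Summable (fun x : {x : ℤ | x ≠ 0 ∧ Enters Z k x} => (1 : ℝ) / |((x : ℤ) : ℝ)|)) ∧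
      Tendsto (levelMass Z) atTop (𝓝 (Real.log (4 / 3) / 2 * (δ₁ + δ₂))) ∧
      ((∀ x : ℤ, x ≠ 0 → ∃ k : ℕ, C^[k] x ∈ Z) ↔ Tendsto (levelMass Z) atTop (𝓝 (Real.log (4 / 3))))) ∧
    ((∀ x : ℤ, ∃ k : ℕ, C^[k] x ∈ known) ↔ Tendsto (levelMass known) atTop (𝓝 (Real.log (4 / 3)))) := by
  have h1 : ∀ Z : Finset ℤ, (∀ y ∈ Z, C y ∈ Z) → ((∀ x : ℤ, x ≠ 0 → ∃ k : ℕ, C^[k] x ∈ Z) ↔
      Tendsto (levelMass Z) atTop (𝓝 (Real.log (4 / 3)))) := by
    intro Z hZ
    obtain ⟨_, _, _, _, _, _, _, _, _, _, _, _, h⟩ := Pool.Agent.R344.LS.cycles_main (Z := Z) hZ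
    exact h
  refine ⟨fun Z hZ => Pool.Agent.R344.LS.cycles_main (Z := Z) hZ, ?_⟩
  rw [← h1 known (by decide)]
  constructor
  · exact fun h x _ => h x
  · intro h x
    by_cases hx : x = 0
    · exact ⟨0, by rw [hx]; decide⟩
    · exact h x hx

end Pool.Agent.Results.MP_d02c56_nt.ReciprocalMassOfLevels
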