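import Pool.Agent.R344.SP.P
import Pool.Agent.R344.SP.Q

/-!
# Polynomial values along almost every Collatz trajectory are equidistributed modulo one

Let `T` be the accelerated Collatz map, let `P` be a real polynomial with an irrational
non-constant coefficient, and let `M` be a positive integer. For every `κ < 2 / log (4 / 3)` and every
`ε > 0`, all but at most `ε N` of the `n ≤ N` (for `N` large) have the following property: for every
`t ≤ κ log n`, every residue `r` modulo `M` and all `0 ≤ u ≤ v ≤ 1`, among the `k < t` with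
`T^k n ≡ r (mod M)` the proportion with `{P (T^k n)}` in `[u, v)` is `v - u`, up to an error `ε log n`
in the count. Since `T^k n` is about `n (3 / 4) ^ (k / 2)` for almost all `n`, the range
`t ≤ κ log n` covers the trajectories all the way down to a size `n ^ o(1)`.
-/

set_option autoImplicit false

namespace Pool.Agent.Results.MP_ff4775_nt.PolynomialsAlongOrbits

open Polynomial

/-- The accelerated Collatz map. -/
def T (n : ℕ) : ℕ := if n % 2 = 0 then n / 2 else (3 * n + 1) / 2

/-- The times `k < t` at which `T^k n` lies in the residue class `r` modulo `M`. -/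
def times (M r n t : ℕ) : Finset ℕ := (Finset.range t).filter (fun k => T^[k] n % M = r)

open Classical in
/-- Those of them at which the fractional part of `P (T^k n)` lies in `[u, v)`. -/
noncomputable def hits (P : ℝ[X]) (M r n t : ℕ) (u v : ℝ) : Finset ℕ :=
  (times M r n t).filter (fun k => u ≤ Int.fract (P.eval (T^[k] n : ℝ)) ∧ Int.fract (P.eval (T^[k] n : ℝ)) < v)

theorem result (P : ℝ[X]) (hP : ∃ j, 1 ≤ j ∧ Irrational (P.coeff j)) (M : ℕ) (hM : 1 ≤ M)
    (κ ε : ℝ) (hκ : κ < 2 / Real.log (4 / 3)) (hε : 0 < ε) :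
    ∃ N₀ : ℕ, ∀ N ≥ N₀,
      (Set.ncard {n : ℕ | 1 ≤ n ∧ n ≤ N ∧ ∃ t : ℕ, (t : ℝ) ≤ κ * Real.log n ∧
        ∃ r : ℕ, ∃ u v : ℝ, 0 ≤ u ∧ u ≤ v ∧ v ≤ 1 ∧
          ε * Real.log n < |((hits P M r n t u v).card : ℝ) - (v - u) * (times M r n t).card|} : ℝ)
        ≤ ε * N := by
  classical
  obtain ⟨κ', hκ0, hκκ, hκ1⟩ := R344.SP.kappa_bridge hκ
  -- the grid
  obtain ⟨L, hL⟩ := exists_nat_ge (8 * κ' / ε + 1)
  have hL0 : (0 : ℝ) < L := by
    have : 0 ≤ 8 * κ' / ε := by positivity
    linarith
  have hL1 : 1 ≤ L := by exact_mod_cast hL0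
  have hM0 : (M : ℤ) ≠ 0 := by exact_mod_cast (by omega : M ≠ 0)
  set W : ℕ := M * ((L + 1) * (L + 1)) with hW
  have hW0 : (0 : ℝ) < W := by
    rw [hW]; exact_mod_cast (by positivity : 0 < M * ((L + 1) * (L + 1)))
  set ε' : ℝ := min (ε / 4) (ε / (2 * W)) with hε'
  have hε'0 : 0 < ε' := lt_min (by positivity) (by positivity)
  set g : ℕ → ℕ → ℕ → ℤ → ℝ := fun r i j x => if x % (M : ℤ) = r then
      ((if (i : ℝ) / L ≤ Int.fract (P.eval (x : ℝ)) ∧ Int.fract (P.eval (x : ℝ)) < (j : ℝ) / L then 1 else 0)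
        - ((j : ℝ) / L - (i : ℝ) / L)) else 0 with hg
  have hmean : ∀ r i j : ℕ, ∃ N₀ : ℕ, i ≤ j → j ≤ L → ∀ N ≥ N₀, ∀ S : Finset ℕ,
      (∀ n ∈ S, 1 ≤ n ∧ n ≤ N ∧ ∃ t : ℕ, (t : ℝ) ≤ κ' * Real.log n ∧ ε' * Real.log N <
        |∑ k ∈ Finset.range t, g r i j ((T^[k] n : ℕ) : ℤ)|) → (S.card : ℝ) ≤ ε' * N := by
    intro r i j
    by_cases hij : i ≤ j ∧ j ≤ L
    · obtain ⟨hij, hjL⟩ := hij
      have hi0 : (0 : ℝ) ≤ (i : ℝ) / L := by positivity
      have hijR : (i : ℝ) / L ≤ (j : ℝ) / L := by
        apply div_le_div_of_nonneg_right _ hL0.le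
        exact_mod_cast hij
      have hj1 : (j : ℝ) / L ≤ 1 := by
        rw [div_le_one hL0]; exact_mod_cast hjL
      obtain ⟨N₀, hN₀⟩ := R344.SP.mean (d := 1) (by norm_num) isCoprime_one_left hκ0 hκ1 (g := g r i j)
        (by
          intro x
          rw [hg]; dsimp only
          split_ifs
          · rw [abs_le]; constructor <;> linarith
          · rw [abs_le]; constructor <;> linarith
          · simp) (ρ := 0) (by simp)
        (R344.SP.locMean_poly_mod (by norm_num) hP hM0 r hi0 hijR hj1) hε'0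
      refine ⟨N₀, fun _ _ N hN S hS => hN₀ N hN (fun _ => 1) (by simp) S ?_⟩
      intro n hn
      obtain ⟨h1, h2, t, ht, hbig⟩ := hS n hn
      refine ⟨h1, h2, t, ht, hbig.trans_eq ?_⟩
      congr 1
      apply Finset.sum_congr rfl
      intro k _
      rw [R344.SP.iter_cast (T := T) (fun _ => rfl) k n, one_mul, sub_zero]
    · exact ⟨0, fun h1 h2 => absurd ⟨h1, h2⟩ hij⟩
  choose N₁ hN₁ using hmean
  set N₂ : ℕ := ∑ r ∈ Finset.range M, ∑ i ∈ Finset.range (L + 1), ∑ j ∈ Finset.range (L + 1), N₁ r i j
    with hN₂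
  have hle : ∀ r < M, ∀ i < L + 1, ∀ j < L + 1, N₁ r i j ≤ N₂ := by
    intro r hr i hi j hj
    calc N₁ r i j ≤ ∑ j ∈ Finset.range (L + 1), N₁ r i j :=
          Finset.single_le_sum (f := fun j => N₁ r i j) (fun _ _ => Nat.zero_le _) (Finset.mem_range.2 hj)
      _ ≤ ∑ i ∈ Finset.range (L + 1), ∑ j ∈ Finset.range (L + 1), N₁ r i j :=
          Finset.single_le_sum (f := fun i => ∑ j ∈ Finset.range (L + 1), N₁ r i j)
            (fun _ _ => Nat.zero_le _) (Finset.mem_range.2 hi)
      _ ≤ N₂ := Finset.single_le_sum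
            (f := fun r => ∑ i ∈ Finset.range (L + 1), ∑ j ∈ Finset.range (L + 1), N₁ r i j)
            (fun _ _ => Nat.zero_le _) (Finset.mem_range.2 hr)
  obtain ⟨N₃, hN₃⟩ := R344.SP.finish' (α := Unit) hκκ
    (fun _ n t c => ∃ r : ℕ, ∃ u v : ℝ, 0 ≤ u ∧ u ≤ v ∧ v ≤ 1 ∧
      c < |((hits P M r n t u v).card : ℝ) - (v - u) * (times M r n t).card|)
    (fun _ n t c c' hc ⟨r, u, v, h1, h2, h3, h4⟩ => ⟨r, u, v, h1, h2, h3, lt_of_le_of_lt hc h4⟩) hε (by
    refine ⟨max N₂ 1, fun N hN _ S hS => ?_⟩
    have hN2 : N₂ ≤ N := le_trans (le_max_left _ _) hN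
    have hN1 : 1 ≤ N := le_trans (le_max_right _ _) hN
    have hlogN : 0 ≤ Real.log N := Real.log_nonneg (by exact_mod_cast hN1)
    set Sb : ℕ → ℕ → ℕ → Finset ℕ := fun r i j => S.filter (fun n => (i ≤ j ∧ j ≤ L) ∧ ∃ t : ℕ,
      (t : ℝ) ≤ κ' * Real.log n ∧
      ε' * Real.log N < |∑ k ∈ Finset.range t, g r i j ((T^[k] n : ℕ) : ℤ)|) with hSb
    have hcov : S ⊆ (Finset.range M).biUnion (fun r => (Finset.range (L + 1)).biUnion
        (fun i => (Finset.range (L + 1)).biUnion (fun j => Sb r i j))) := by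
      intro n hn
      obtain ⟨h1, h2, t, ht, r, u, v, hu, huv, hv, hbig⟩ := hS n hn
      have hlogn : Real.log n ≤ Real.log N := Real.log_le_log (by exact_mod_cast h1) (by exact_mod_cast h2)
      have htN : (t : ℝ) ≤ κ' * Real.log N := ht.trans (mul_le_mul_of_nonneg_left hlogn hκ0.le)
      have hrM : r < M := by
        by_contra hcon
        have hemp : times M r n t = ∅ := by
          unfold times
          rw [Finset.filter_eq_empty_iff]
          intro k _ hk
          have := Nat.mod_lt (T^[k] n) (by omega : 0 < M)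
          omega
        have hemp2 : hits P M r n t u v = ∅ := by
          unfold hits
          rw [hemp, Finset.filter_empty]
        rw [hemp, hemp2] at hbig
        simp only [Finset.card_empty, Nat.cast_zero, mul_zero, sub_zero, abs_zero] at hbig
        have : 0 ≤ ε / 2 * Real.log N := by positivity
        linarith
      -- a bad pair of grid points
      obtain ⟨i, j, hij, hjL, hbad⟩ : ∃ i j : ℕ, i ≤ j ∧ j ≤ L ∧
          ε' * Real.log N < |∑ k ∈ Finset.range t, g r i j ((T^[k] n : ℕ) : ℤ)| := by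
        by_contra hcon
        push Not at hcon
        set x : ℕ → ℝ := fun k => Int.fract (P.eval (T^[k] n : ℝ)) with hx
        have hgr := R344.SP.cnt_grid x (times M r n t) hL1 (δ := ε' * Real.log N) (by positivity) (by
          intro i j hij hjL
          refine le_trans (le_of_eq ?_) (hcon i j hij hjL)
          congr 1
          unfold R344.SP.cnt
          have e1 : ((j : ℝ) / L - (i : ℝ) / L) * ((times M r n t).card : ℝ)
              = ∑ _k ∈ times M r n t, ((j : ℝ) / L - (i : ℝ) / L) := by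
            rw [Finset.sum_const, nsmul_eq_mul]; ring
          rw [e1, ← Finset.sum_sub_distrib]
          unfold times
          rw [Finset.sum_filter]
          apply Finset.sum_congr rfl
          intro k _
          rw [hg]; dsimp only
          have e2 : ((T^[k] n : ℕ) : ℤ) % (M : ℤ) = (r : ℤ) ↔ T^[k] n % M = r := by
            rw [← Int.natCast_mod]; exact_mod_cast Iff.rfl
          simp only [e2, Int.cast_natCast]
          rfl) hu huv hv
        have e3 : R344.SP.cnt x (times M r n t) u v = ((hits P M r n t u v).card : ℝ) := by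
          unfold R344.SP.cnt hits
          rw [Finset.sum_boole]
        rw [e3] at hgr
        have htimes : ((times M r n t).card : ℝ) ≤ t := by
          have : (times M r n t).card ≤ (Finset.range t).card := Finset.card_filter_le _ _
          rw [Finset.card_range] at this
          exact_mod_cast this
        have h5 : 2 * ((times M r n t).card : ℝ) / L ≤ ε / 4 * Real.log N := by
          rw [div_le_iff₀ hL0]
          have h6 : 8 * κ' / ε ≤ L := by linarith
          rw [div_le_iff₀ hε] at h6
          have h7 : 8 * κ' * Real.log N ≤ L * ε * Real.log N := mul_le_mul_of_nonneg_right h6 hlogN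
          nlinarith
        have h8 : ε' * Real.log N ≤ ε / 4 * Real.log N :=
          mul_le_mul_of_nonneg_right (min_le_left _ _) hlogN
        linarith
      rw [Finset.mem_biUnion]
      refine ⟨r, Finset.mem_range.2 hrM, ?_⟩
      rw [Finset.mem_biUnion]
      refine ⟨i, Finset.mem_range.2 (by omega), ?_⟩
      rw [Finset.mem_biUnion]
      refine ⟨j, Finset.mem_range.2 (by omega), ?_⟩
      rw [hSb, Finset.mem_filter]
      exact ⟨hn, ⟨hij, hjL⟩, t, ht, hbad⟩
    have hone : ∀ r ∈ Finset.range M, ∀ i ∈ Finset.range (L + 1), ∀ j ∈ Finset.range (L + 1),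
        ((Sb r i j).card : ℝ) ≤ ε' * N := by
      intro r hr i hi j hj
      rw [Finset.mem_range] at hr hi hj
      by_cases hij : i ≤ j ∧ j ≤ L
      · refine hN₁ r i j hij.1 hij.2 N ((hle r hr i hi j hj).trans hN2) (Sb r i j) ?_
        intro n hn
        rw [hSb, Finset.mem_filter] at hn
        obtain ⟨h1, h2, _⟩ := hS n hn.1
        exact ⟨h1, h2, hn.2.2⟩
      · have : Sb r i j = ∅ := by
          rw [hSb]; dsimp only
          rw [Finset.filter_eq_empty_iff]
          intro n _ h
          exact hij h.1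
        rw [this, Finset.card_empty, Nat.cast_zero]
        positivity
    have hcard : (S.card : ℝ) ≤ ∑ r ∈ Finset.range M, ∑ i ∈ Finset.range (L + 1),
        ∑ j ∈ Finset.range (L + 1), ((Sb r i j).card : ℝ) := by
      have h1 := Finset.card_le_card hcov
      have h2 : ((Finset.range M).biUnion (fun r => (Finset.range (L + 1)).biUnion
        (fun i => (Finset.range (L + 1)).biUnion (fun j => Sb r i j)))).card
          ≤ ∑ r ∈ Finset.range M, ∑ i ∈ Finset.range (L + 1), ∑ j ∈ Finset.range (L + 1), (Sb r i j).card := by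
        refine Finset.card_biUnion_le.trans (Finset.sum_le_sum fun r _ => ?_)
        refine Finset.card_biUnion_le.trans (Finset.sum_le_sum fun i _ => ?_)
        exact Finset.card_biUnion_le
      exact_mod_cast h1.trans h2
    calc (S.card : ℝ) ≤ _ := hcard
      _ ≤ ∑ r ∈ Finset.range M, ∑ i ∈ Finset.range (L + 1), ∑ j ∈ Finset.range (L + 1), ε' * N :=
          Finset.sum_le_sum fun r hr => Finset.sum_le_sum fun i hi => Finset.sum_le_sum fun j hj =>
            hone r hr i hi j hj
      _ = W * (ε' * N) := by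
          simp only [Finset.sum_const, Finset.card_range, nsmul_eq_mul, hW]
          push_cast; ring
      _ ≤ W * (ε / (2 * W) * N) := by
          apply mul_le_mul_of_nonneg_left _ hW0.le
          exact mul_le_mul_of_nonneg_right (min_le_right _ _) (by positivity)
      _ = ε / 2 * N := by field_simp)
  exact ⟨N₃, fun N hN => hN₃ N hN ()⟩

end Pool.Agent.Results.MP_ff4775_nt.PolynomialsAlongOrbits
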