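import Mathlib
import Pool.Agent.R344.RL.H

/-!
# Leigh's chain on the levels of the maps `x / 2`, `(3 x - r) / 2`

Let `r` be an odd integer which is not a multiple of `3`, and let `T` be the generalised Collatz map
with `d = 2`, `m_0 = 1`, `m_1 = 3`, `r_0 = 0`, `r_1 = r`. Leigh's chain has the two states `B(0, 2)`,
`B(1, 2)`, all transition probabilities are `1/2`, and `Λ = √3 / 2 < 1`, so that by the question all
trajectories cycle. The chain describes the trajectories of the profinite integers, and it describes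
the first steps of the integers of an interval because these are periodic modulo a power of `2`.

Here it is shown that the chain describes the integers which need exactly `k` steps to reach a given
finite set. For a finite set `F` of integers let the level `k` be the set of the integers `x ≠ 0` whose
trajectory meets `F` for the first time at time `k`, and give `x` the weight `1 / |x|`. As `k → ∞` the
first `a` states of the trajectories in the level `k` follow the law of the chain, they become
independent of the residue of `x` modulo `3 ^ b`, which becomes uniform, and also of the number of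
visits to the state `B(1, 2)` up to the time `k`, which follows the binomial law of the chain in total
variation. The total weight of the level tends to `½ log (4/3) (δ₁ + δ₂)`, where `δ₁` and `δ₂` are the
densities of the positive and of the negative integers which reach `F`.
-/

set_option autoImplicit false

open Filter Topology

namespace Pool.Agent.Results.MP_39d40e_nt.StatesOnLevels

/-- The generalised Collatz map with `d = 2`, `m_0 = 1`, `m_1 = 3`, `r_0 = 0`, `r_1 = r`. -/
def T (r x : ℤ) : ℤ := if x % 2 = 0 then x / 2 else (3 * x - r) / 2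

/-- The level `k` over `F`: the `x ≠ 0` whose trajectory meets `F` for the first time at time `k`. -/
def level (r : ℤ) (F : Finset ℤ) (k : ℕ) : Set ℤ :=
  {x : ℤ | x ≠ 0 ∧ (T r)^[k] x ∈ F ∧ ∀ i < k, (T r)^[i] x ∉ F}

/-- The number of visits to the state `B(1, 2)`, that is the number of odd integers among
`x, T(x), …, T^(k-1)(x)`. -/
def visits (r : ℤ) (k : ℕ) (x : ℤ) : ℕ := ((Finset.range k).filter fun i => (T r)^[i] x % 2 = 1).card

/-- The integers `x` with `T^i(x) ∈ B(w i, 2)` for `i < a` and `x ≡ c` modulo `3 ^ b`. -/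
def start (r : ℤ) (a b : ℕ) (c : ℤ) (w : ℕ → ℤ) : Set ℤ :=
  {x : ℤ | (∀ i < a, (T r)^[i] x % 2 = w i) ∧ (3 ^ b : ℤ) ∣ x - c}

/-- The sum of `1 / |x|` over the `x` in `A`. -/
noncomputable def mass (A : Set ℤ) : ℝ := ∑' x : A, (1 : ℝ) / |((x : ℤ) : ℝ)|

/-- The integers `n ≥ 1` with the property `P` have the natural density `δ`. -/
def HasDensity (P : ℕ → Prop) (δ : ℝ) : Prop :=
  Tendsto (fun N : ℕ => ({n : ℕ | 1 ≤ n ∧ n ≤ N ∧ P n}.ncard : ℝ) / N) atTop (𝓝 δ)

/-- Let `r` be odd and not divisible by `3`, and let `F` be a finite set of integers. The `n ≥ 1` such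
that the trajectory of `n` (of `-n`) meets `F` have a natural density `δ₁` (`δ₂`). For all `a`, `b`, `c`
and every sequence `w` of states the masses of the parts in `start r a b c w` of the levels over `F` are
finite, and they tend to `½ log (4/3) (δ₁ + δ₂) / (2 ^ a 3 ^ b)`. The masses of those members of these
parts which have `o` visits differ from `½ log (4/3) (δ₁ + δ₂) / (2 ^ a 3 ^ b)` times
`choose (k, o) / 2 ^ k` by quantities whose absolute values have a sum over `o` which tends to `0`. -/
theorem result (r : ℤ) (hr : Odd r) (hr3 : ¬ (3 : ℤ) ∣ r) (F : Finset ℤ) : ∃ δ₁ δ₂ : ℝ,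
    HasDensity (fun n => ∃ k : ℕ, (T r)^[k] (n : ℤ) ∈ F) δ₁ ∧
    HasDensity (fun n => ∃ k : ℕ, (T r)^[k] (-(n : ℤ)) ∈ F) δ₂ ∧
    ∀ (a b : ℕ) (c : ℤ) (w : ℕ → ℤ), (∀ i, w i = 0 ∨ w i = 1) →
      (∀ k : ℕ, Summable (fun x : {x : ℤ | x ∈ level r F k ∧ x ∈ start r a b c w} =>
        (1 : ℝ) / |((x : ℤ) : ℝ)|)) ∧
      Tendsto (fun k : ℕ => mass {x : ℤ | x ∈ level r F k ∧ x ∈ start r a b c w}) atTop
        (𝓝 (1 / 2 * Real.log (4 / 3) * (δ₁ + δ₂) / (2 ^ a * 3 ^ b))) ∧
      Tendsto (fun k : ℕ => ∑ o ∈ Finset.range (k + 1),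
        |mass {x : ℤ | x ∈ level r F k ∧ visits r k x = o ∧ x ∈ start r a b c w} -
          1 / 2 * Real.log (4 / 3) * (δ₁ + δ₂) / (2 ^ a * 3 ^ b) * ((k.choose o : ℝ) / 2 ^ k)|)
        atTop (𝓝 0) := by
  have hT : T r = Pool.Agent.H499R2.ND.Td (-r) := by
    funext x
    unfold T Pool.Agent.H499R2.ND.Td
    rw [sub_eq_add_neg]
  obtain ⟨δ₁, δ₂, _, _, _, _, h1, h2, h3⟩ :=
    Pool.Agent.R344.RL.both_res (d := -r) hr.neg (by rwa [dvd_neg]) F
  refine ⟨δ₁, δ₂, ?_, ?_, ?_⟩
  · rw [hT]
    simp only [one_mul] at h1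
    exact h1
  · rw [hT]
    simp only [neg_one_mul] at h2
    exact h2
  · intro a b c w hw
    obtain ⟨R, hR⟩ := Pool.Agent.R344.RL.pat_classZ (d := -r) hr.neg a b c w hw
    obtain ⟨h4, h5, h6⟩ := h3 a b R
    have e0 : 1 / 2 * Real.log (4 / 3) * (δ₁ + δ₂) / (2 ^ a * 3 ^ b) =
        Real.log (4 / 3) / 2 * (δ₁ + δ₂) / (2 ^ a * 3 ^ b) := by ring
    rw [e0]
    have e1 : ∀ k, {x : ℤ | x ∈ level r F k ∧ x ∈ start r a b c w} =
        {x : ℤ | x ≠ 0 ∧ (Pool.Agent.R344.LS.FH (-r) F k x ∧ (2 ^ a * 3 ^ b : ℤ) ∣ x - R)} := by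
      intro k
      ext x
      simp only [level, start, hT, Set.mem_ofPred_eq, ← hR x, Pool.Agent.R344.LS.FH, and_assoc]
    have e2 : ∀ k o : ℕ, {x : ℤ | x ∈ level r F k ∧ visits r k x = o ∧ x ∈ start r a b c w} =
        {x : ℤ | x ≠ 0 ∧ (Pool.Agent.R344.LS.FH (-r) F k x ∧ Pool.Agent.H499R2.LT.od (-r) k x = o ∧
          (2 ^ a * 3 ^ b : ℤ) ∣ x - R)} := by
      intro k o
      ext x
      simp only [level, start, visits, hT, Set.mem_ofPred_eq, ← hR x, Pool.Agent.R344.LS.FH, and_assoc,
        Pool.Agent.R344.LS.od_card, Nat.cast_inj]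
    refine ⟨?_, ?_, ?_⟩
    · intro k
      rw [e1]
      exact h4 k
    · simp only [e1]
      exact h5
    · simp only [e2]
      exact h6

end Pool.Agent.Results.MP_39d40e_nt.StatesOnLevels
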